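import Mathlib
import Pool.Agent.H370R3.CLDefs
import Pool.Agent.H370R3.CLTube
import Pool.Agent.H370R3.CLCup

/-!
The lower bound of the normal curvature of immersions into the unit ball by a multiple of
`l ^ 2 / (m * k)`, for manifolds of cup-length at least `l`, fails: the boundary of a tube around the
Clifford torus `T ^ n` in `ℂ ^ n` is a closed hypersurface `T ^ n × S ^ (n - 1)`, of cup-length at
least `n` over every field, and, scaled into the unit ball, it has normal curvature at most
`2 * √n + 1`.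
-/

namespace Pool.Agent.Results.MP_ecbb26_gt.CupLengthCurvature

open scoped Manifold ContDiff ENNReal
open Pool.Agent.H370R3.CL

/-- `Realised m k l κ`: there are a closed smooth `m`-manifold `X` (compact, Hausdorff, without
boundary, modelled on a real vector space `E` of dimension `m`), of cup-length at least `l` over
every field, and an injective smooth immersion `f` of `X` into the closed unit ball of `ℝ ^ (m + k)`
whose maximal normal curvature, in either of its two equivalent descriptions, is at most `κ`. -/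
def Realised (m k l : ℕ) (κ : ℝ) : Prop :=
  ∃ (E H X : Type) (_ : NormedAddCommGroup E) (_ : NormedSpace ℝ E) (_ : FiniteDimensional ℝ E)
    (_ : TopologicalSpace H) (I : ModelWithCorners ℝ E H) (_ : I.Boundaryless)
    (_ : TopologicalSpace X) (_ : ChartedSpace H X) (_ : IsManifold I ∞ X) (_ : CompactSpace X)
    (_ : T2Space X) (f : X → EuclideanSpace ℝ (Fin (m + k))),
    Module.finrank ℝ E = m ∧
    (∀ (K : Type) [Field K], CupLengthAtLeast K X l) ∧
    ContMDiff I 𝓘(ℝ, EuclideanSpace ℝ (Fin (m + k))) ∞ f ∧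
    (∀ x, Function.Injective (mvfderiv I f x)) ∧
    Function.Injective f ∧
    (∀ x, ‖f x‖ ≤ 1) ∧
    curvII I f ≤ ENNReal.ofReal κ ∧
    curvGeod I f ≤ ENNReal.ofReal κ

theorem family (q : ℕ) : Realised (2 * q + 1) 1 (q + 1) (2 * √((q : ℝ) + 1) + 1) := by
  have hd : Module.finrank ℝ (Cn (q + 1)) = 2 * q + 1 + 1 := by
    have := finrank_V (q := q) (V := Cn (q + 1)) (LinearIsometryEquiv.refl ℝ _)
    omega
  let Φ : Cn (q + 1) ≃ₗᵢ[ℝ] EuclideanSpace ℝ (Fin (2 * q + 1 + 1)) :=
    ((stdOrthonormalBasis ℝ (Cn (q + 1))).reindex (finCongr hd)).repr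
  let s : ℝ := 1 / (√((q : ℝ) + 1) + 1 / 2)
  have hs : 0 < s := by positivity
  have hκ : 2 / s = 2 * √((q : ℝ) + 1) + 1 := by
    have h0 : √((q : ℝ) + 1) + 1 / 2 ≠ 0 := by positivity
    simp only [s, div_div_eq_mul_div, div_one]
    ring
  refine ⟨EE q, HH q, XX q, inferInstance, inferInstance, inferInstance, inferInstance, IX q,
    inferInstance, inferInstance, inferInstance, inferInstance, inferInstance, inferInstance,
    ff Φ s, finrank_EE q, ?_, smooth_ff Φ s ∞, injective_ff Φ s hs, ff_injective Φ s hs,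
    norm_ff_le Φ s rfl, ?_, ?_⟩
  · intro K _
    have ν₀ : Nrm q := ⟨EuclideanSpace.single 0 1, by simp⟩
    refine cupLength_of_torus (X := XX q) (q := q)
      ⟨fun u => (u, ν₀), by fun_prop⟩ K
      (fun i => ⟨fun x => x.1 i, by fun_prop⟩) (fun i u => rfl)
  · rw [← hκ]
    exact curvII_ff Φ s hs
  · rw [← hκ]
    exact curvGeod_ff Φ s hs

/-- The first part gives, for every `n = q + 1`, a closed hypersurface of dimension `2 n - 1` and
cup-length at least `n` in the unit ball with normal curvature at most `2 √n + 1`. The second part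
says that for no positive constant `c` the bound `c * l ^ 2 / (m * k)` holds for all closed
manifolds and immersions; the question is the case `c = 1 / 10`. -/
theorem result :
    (∀ q : ℕ, Realised (2 * q + 1) 1 (q + 1) (2 * √((q : ℝ) + 1) + 1)) ∧
    ∀ c : ℝ, 0 < c → ∃ m k l : ℕ, 1 ≤ m ∧ 1 ≤ k ∧ 1 ≤ l ∧
      ∃ κ : ℝ, κ < c * (l : ℝ) ^ 2 / (m * k) ∧ Realised m k l κ := by
  refine ⟨family, fun c hc => ?_⟩
  obtain ⟨q, hq⟩ := exists_nat_gt (36 / c ^ 2)
  refine ⟨2 * q + 1, 1, q + 1, by omega, le_rfl, by omega, _, ?_, family q⟩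
  push_cast
  set r := √((q : ℝ) + 1) with hr
  have hr2 : r ^ 2 = (q : ℝ) + 1 := Real.sq_sqrt (by positivity)
  have hr1 : 1 ≤ r := by
    rw [hr]
    apply Real.one_le_sqrt.2
    have : (0 : ℝ) ≤ q := Nat.cast_nonneg q
    linarith
  have h1 : 36 / c ^ 2 < r ^ 2 := by rw [hr2]; linarith
  have h2 : 36 < (c * r) ^ 2 := by
    rw [div_lt_iff₀ (by positivity)] at h1
    nlinarith
  have h3 : 6 < c * r := by
    by_contra hcon
    push Not at hcon
    have : 0 ≤ c * r := by positivity
    nlinarith
  have hm : (0 : ℝ) < (2 * q + 1) * 1 := by positivity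
  rw [lt_div_iff₀ hm, ← hr2]
  have h4 : (2 * (q : ℝ) + 1) * 1 < 2 * r ^ 2 := by rw [hr2]; linarith
  have h5 : 2 * r + 1 ≤ 3 * r := by linarith
  calc (2 * r + 1) * ((2 * (q : ℝ) + 1) * 1) ≤ (3 * r) * (2 * r ^ 2) := by
        apply mul_le_mul h5 h4.le hm.le (by positivity)
    _ = 6 * r ^ 3 := by ring
    _ < (c * r) * r ^ 3 := by
        apply mul_lt_mul_of_pos_right h3 (by positivity)
    _ = c * (r ^ 2) ^ 2 := by ring

end Pool.Agent.Results.MP_ecbb26_gt.CupLengthCurvature
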